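import Pool.Agent.U610.PC.Stm
import Pool.Agent.R847.QB.Meyer
import Pool.Agent.R847.QB.Dir

/-!
# Project PC (helper610), package HM (helper467): Hasse and Minkowski in four variables

The method is that of the theorem of Meyer of helper847 (`Pool.Agent.R847.QB.meyer`).
-/

set_option autoImplicit false

namespace Pool.Agent.U467.PC

open Pool.Agent.W313.BMX (Splits splits_swap splits_comm splits_mul_sq splits_neg_mul)
open Pool.Agent.R847.QB Pool.Agent.U610.PC

variable {F : Type} [Field F]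

/-- from an isotropic vector to a common value -/
theorem split4 [CharZero F] (a : Fin 4 → F) (ha : ∀ i, a i ≠ 0) (h : Iso a) :
    ∃ c : F, c ≠ 0 ∧ Splits (-(a 0 * a 1)) (a 0 * c) ∧ Splits (-(a 2 * a 3)) (-(a 2 * c)) := by
  have univ : ∀ {α β x y : F}, α ≠ 0 → β ≠ 0 → (x ≠ 0 ∨ y ≠ 0) → α * x ^ 2 + β * y ^ 2 = 0 →
      ∀ c : F, Splits (-(α * β)) (α * c) := by
    intro α β x y hα hβ hxy h0 c
    refine ⟨y, 0, α * x, ?_, ?_⟩
    · rcases hxy with h | h
      · exact Or.inr (Or.inr (mul_ne_zero hα h))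
      · exact Or.inl h
    · linear_combination α * h0
  obtain ⟨x, hx, hs⟩ := h
  rw [Fin.sum_univ_four] at hs
  by_cases hc : a 0 * x 0 ^ 2 + a 1 * x 1 ^ 2 = 0
  · have hd : a 2 * x 2 ^ 2 + a 3 * x 3 ^ 2 = 0 := by linear_combination hs - hc
    by_cases h01 : x 0 ≠ 0 ∨ x 1 ≠ 0
    · refine ⟨-(a 2), neg_ne_zero.2 (ha 2), univ (ha 0) (ha 1) h01 hc _, ?_⟩
      have := splits_of_rep (a := a 2) (b := a 3) (c := a 2) (x := 1) (y := 0) (by ring)
      rw [show -(a 2 * -(a 2)) = a 2 * a 2 by ring]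
      exact this
    · push Not at h01
      have h23 : x 2 ≠ 0 ∨ x 3 ≠ 0 := by
        by_contra hcon
        push Not at hcon
        apply hx
        funext i
        fin_cases i
        · exact h01.1
        · exact h01.2
        · exact hcon.1
        · exact hcon.2
      refine ⟨a 0, ha 0, splits_of_rep (x := 1) (y := 0) (by ring), ?_⟩
      rw [show -(a 2 * a 0) = a 2 * (-(a 0)) by ring]
      exact univ (ha 2) (ha 3) h23 hd _
  · refine ⟨a 0 * x 0 ^ 2 + a 1 * x 1 ^ 2, hc, splits_of_rep rfl, ?_⟩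
    rw [show -(a 2 * (a 0 * x 0 ^ 2 + a 1 * x 1 ^ 2)) = a 2 * (-(a 0 * x 0 ^ 2 + a 1 * x 1 ^ 2)) by
      ring]
    exact splits_of_rep (x := x 2) (y := x 3) (by linear_combination hs)

/-- from a common value to an isotropic vector -/
theorem glue4 [CharZero F] (a : Fin 4 → F) (ha : ∀ i, a i ≠ 0) {c : F} (hc : c ≠ 0)
    (h1 : Splits (-(a 0 * a 1)) (a 0 * c)) (h2 : Splits (-(a 2 * a 3)) (-(a 2 * c))) : Iso a := by
  obtain ⟨x0, x1, e1⟩ := rep_of_splits (ha 0) (ha 1) h1
  obtain ⟨x2, x3, e2⟩ := rep_of_splits (c := -c) (ha 2) (ha 3) (by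
    rw [show a 2 * -c = -(a 2 * c) by ring]; exact h2)
  refine ⟨![x0, x1, x2, x3], ?_, ?_⟩
  · intro h
    have h3' : x0 = 0 := congrFun h 0
    have h4' : x1 = 0 := congrFun h 1
    rw [h3', h4'] at e1
    apply hc
    linear_combination -e1
  · rw [Fin.sum_univ_four]
    simp only [Matrix.cons_val_zero, Matrix.cons_val_one, Matrix.cons_val]
    linear_combination e1 + e2

/-- **The theorem of Hasse and Minkowski** for diagonal forms in four variables. -/
theorem t_HM : S_HM := by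
  classical
  intro a ha hreal0 hloc0
  -- the bad primes
  set P : ℤ := 2 * (a 0 * a 1 * a 2 * a 3) with hP
  have hP0 : P ≠ 0 := by
    rw [hP]
    exact mul_ne_zero two_ne_zero (mul_ne_zero (mul_ne_zero (mul_ne_zero (ha 0) (ha 1))
      (ha 2)) (ha 3))
  have hfin : {p : Nat.Primes | ((p : ℕ) : ℤ) ∣ P}.Finite := by
    refine Set.Finite.of_finite_image (f := fun p : Nat.Primes => (p : ℕ)) ?_
      (fun _ _ _ _ h => Subtype.ext h)
    refine (Set.finite_le_nat P.natAbs).subset ?_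
    rintro _ ⟨p, hp, rfl⟩
    have h1 : (p : ℕ) ∣ P.natAbs := Int.natCast_dvd.1 hp
    exact Nat.le_of_dvd (Int.natAbs_pos.2 hP0) h1
  set T : Finset Nat.Primes := hfin.toFinset with hT
  have hnT : ∀ p : Nat.Primes, p ∉ T → ¬ ((p : ℕ) : ℤ) ∣ P := by
    intro p hp h
    exact hp ((Set.Finite.mem_toFinset hfin).2 h)
  have hTa : ∀ p : Nat.Primes, p ∉ T → (p : ℕ) ≠ 2 ∧ ∀ i, ¬ ((p : ℕ) : ℤ) ∣ a i := by
    intro p hp
    have h := hnT p hp
    refine ⟨fun h2 => h ?_, fun i hi => h ?_⟩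
    · rw [h2, hP]; exact Dvd.intro _ rfl
    · rw [hP]
      refine Dvd.dvd.mul_left ?_ _
      fin_cases i
      · exact ((hi.mul_right _).mul_right _).mul_right _
      · exact ((hi.mul_left _).mul_right _).mul_right _
      · exact (hi.mul_left _).mul_right _
      · exact hi.mul_left _
  have cast0 : ∀ (p : Nat.Primes) (i : Fin 4), ((a i : ℤ) : ℚ_[(p : ℕ)]) ≠ 0 := fun p i =>
    Int.cast_ne_zero.2 (ha i)
  -- the local values
  have hloc : ∀ p : Nat.Primes, ∃ c : ℤ, c ≠ 0 ∧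
      Splits (-((a 0 : ℚ_[(p : ℕ)]) * a 1)) ((a 0 : ℚ_[(p : ℕ)]) * c) ∧
      Splits (-((a 2 : ℚ_[(p : ℕ)]) * a 3)) (-((a 2 : ℚ_[(p : ℕ)]) * c)) := by
    intro p
    obtain ⟨c, hc, h1, h2⟩ := split4 (fun i => ((a i : ℤ) : ℚ_[(p : ℕ)]))
      (cast0 p) (hloc0 (p : ℕ))
    obtain ⟨c', hc', r, hr⟩ := exists_int_class (p : ℕ) c hc
    have k1 : ((c' : ℤ) : ℚ_[(p : ℕ)]) ≠ 0 := Int.cast_ne_zero.2 hc'
    refine ⟨c', hc', ?_, ?_⟩
    · exact (splits_class (mul_ne_zero (cast0 p 0) hc) (mul_ne_zero (cast0 p 0) k1)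
        ⟨(a 0 : ℚ_[(p : ℕ)]) * r, by linear_combination (a 0 : ℚ_[(p : ℕ)]) ^ 2 * hr⟩).1 h1
    · exact (splits_class (neg_ne_zero.2 (mul_ne_zero (cast0 p 2) hc))
        (neg_ne_zero.2 (mul_ne_zero (cast0 p 2) k1))
        ⟨(a 2 : ℚ_[(p : ℕ)]) * r, by linear_combination (a 2 : ℚ_[(p : ℕ)]) ^ 2 * hr⟩).1 h2
  choose gc hgc L1 L2 using hloc
  -- the real value
  have hreal : ∃ s : ℤ, (s = 1 ∨ s = -1) ∧
      (0 < -(a 0 * a 1) ∨ 0 < a 0 * s) ∧ (0 < -(a 2 * a 3) ∨ 0 < -(a 2 * s)) := by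
    have castR : ∀ i : Fin 4, ((a i : ℤ) : ℝ) ≠ 0 := fun i => Int.cast_ne_zero.2 (ha i)
    obtain ⟨c, hc, h1, h2⟩ := split4 (fun i => ((a i : ℤ) : ℝ)) castR hreal0
    have h1' := (splits_real_iff (neg_ne_zero.2 (mul_ne_zero (castR 0) (castR 1)))
      (mul_ne_zero (castR 0) hc)).1 h1
    have h2' := (splits_real_iff (neg_ne_zero.2 (mul_ne_zero (castR 2) (castR 3)))
      (neg_ne_zero.2 (mul_ne_zero (castR 2) hc))).1 h2
    rcases lt_or_gt_of_ne hc with hneg | hpos
    · refine ⟨-1, Or.inr rfl, ?_, ?_⟩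
      · rcases h1' with h | h
        · exact Or.inl (by exact_mod_cast h)
        · right
          have h3 : ((a 0 : ℤ) : ℝ) < 0 := by
            by_contra hcon
            push Not at hcon
            nlinarith
          have h4 : a 0 < 0 := by exact_mod_cast h3
          linarith
      · rcases h2' with h | h
        · exact Or.inl (by exact_mod_cast h)
        · right
          have h3 : 0 < ((a 2 : ℤ) : ℝ) := by
            by_contra hcon
            push Not at hcon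
            nlinarith
          have h4 : 0 < a 2 := by exact_mod_cast h3
          linarith
    · refine ⟨1, Or.inl rfl, ?_, ?_⟩
      · rcases h1' with h | h
        · exact Or.inl (by exact_mod_cast h)
        · right
          have h3 : 0 < ((a 0 : ℤ) : ℝ) := by
            by_contra hcon
            push Not at hcon
            nlinarith
          have h4 : 0 < a 0 := by exact_mod_cast h3
          linarith
      · rcases h2' with h | h
        · exact Or.inl (by exact_mod_cast h)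
        · right
          have h3 : ((a 2 : ℤ) : ℝ) < 0 := by
            by_contra hcon
            push Not at hcon
            nlinarith
          have h4 : a 2 < 0 := by exact_mod_cast h3
          linarith
  obtain ⟨sc, hsc, R1, R2⟩ := hreal
  obtain ⟨c, q, hq, hcs, hcT, hcn⟩ := dir_ T gc sc hsc hgc
  have hc0 : c ≠ 0 := by rintro rfl; simp at hcs
  have hcne : ∀ p : Nat.Primes, ((c : ℤ) : ℚ_[(p : ℕ)]) ≠ 0 := fun p => Int.cast_ne_zero.2 hc0
  have hgcne : ∀ p : Nat.Primes, ((gc p : ℤ) : ℚ_[(p : ℕ)]) ≠ 0 := fun p =>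
    Int.cast_ne_zero.2 (hgc p)
  have hprime : ∀ (p : Nat.Primes) {x y : ℤ}, ¬ ((p : ℕ) : ℤ) ∣ x → ¬ ((p : ℕ) : ℤ) ∣ y →
      ¬ ((p : ℕ) : ℤ) ∣ x * y := by
    intro p x y hx hy h
    rcases (Nat.prime_iff_prime_int.1 p.2).dvd_or_dvd h with h | h
    · exact hx h
    · exact hy h
  have hnegd : ∀ (p : Nat.Primes) {x : ℤ}, ¬ ((p : ℕ) : ℤ) ∣ x → ¬ ((p : ℕ) : ℤ) ∣ -x :=
    fun p x hx h => hx (dvd_neg.1 h)
  have sgn : ∀ {x s : ℤ}, 0 < x * s → (s = 1 ∨ s = -1) → ∀ b : ℤ, 0 < b * s → 0 < b * x := by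
    rintro x s h1 (rfl | rfl) b h2
    · simp at h1 h2
      exact mul_pos h2 h1
    · simp at h1 h2
      exact mul_pos_of_neg_of_neg h2 h1
  have S1 : Splits ((-(a 0 * a 1) : ℤ) : ℚ) ((a 0 * c : ℤ) : ℚ) := by
    refine global (neg_ne_zero.2 (mul_ne_zero (ha 0) (ha 1))) (mul_ne_zero (ha 0) hc0) q ?_ ?_
    · rw [splits_real_iff]
      · rcases R1 with h | h
        · exact Or.inl (by exact_mod_cast h)
        · exact Or.inr (by exact_mod_cast sgn hcs hsc (a 0) h)
      · exact_mod_cast neg_ne_zero.2 (mul_ne_zero (ha 0) (ha 1))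
      · exact_mod_cast mul_ne_zero (ha 0) hc0
    · intro p hpq
      by_cases hpT : p ∈ T
      · have h := hcT p hpT
        push_cast at h ⊢
        refine (splits_class (mul_ne_zero (cast0 p 0) (hcne p)) (mul_ne_zero (cast0 p 0) (hgcne p))
          ?_).2 (L1 p)
        obtain ⟨r, hr⟩ := h
        exact ⟨a 0 * r, by linear_combination (a 0 : ℚ_[(p : ℕ)]) ^ 2 * hr⟩
      · obtain ⟨k1, k2⟩ := hTa p hpT
        exact splits_units k1 (hnegd p (hprime p (k2 0) (k2 1))) (hprime p (k2 0) (hcn p hpT hpq))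
  have S2 : Splits ((-(a 2 * a 3) : ℤ) : ℚ) ((-(a 2 * c) : ℤ) : ℚ) := by
    refine global (neg_ne_zero.2 (mul_ne_zero (ha 2) (ha 3)))
      (neg_ne_zero.2 (mul_ne_zero (ha 2) hc0)) q ?_ ?_
    · rw [splits_real_iff]
      · rcases R2 with h | h
        · exact Or.inl (by exact_mod_cast h)
        · have h' : 0 < (-a 2) * sc := by linarith
          have := sgn hcs hsc (-a 2) h'
          exact Or.inr (by
            have h2 : 0 < -(a 2 * c) := by linarith
            exact_mod_cast h2)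
      · exact_mod_cast neg_ne_zero.2 (mul_ne_zero (ha 2) (ha 3))
      · exact_mod_cast neg_ne_zero.2 (mul_ne_zero (ha 2) hc0)
    · intro p hpq
      by_cases hpT : p ∈ T
      · have h := hcT p hpT
        push_cast at h ⊢
        refine (splits_class (neg_ne_zero.2 (mul_ne_zero (cast0 p 2) (hcne p)))
          (neg_ne_zero.2 (mul_ne_zero (cast0 p 2) (hgcne p))) ?_).2 (L2 p)
        obtain ⟨r, hr⟩ := h
        exact ⟨a 2 * r, by linear_combination (a 2 : ℚ_[(p : ℕ)]) ^ 2 * hr⟩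
      · obtain ⟨k1, k2⟩ := hTa p hpT
        exact splits_units k1 (hnegd p (hprime p (k2 2) (k2 3)))
          (hnegd p (hprime p (k2 2) (hcn p hpT hpq)))
  refine glue4 (fun i => ((a i : ℤ) : ℚ)) (fun i => Int.cast_ne_zero.2 (ha i)) (c := (c : ℚ))
    (Int.cast_ne_zero.2 hc0) ?_ ?_
  · push_cast at S1; exact S1
  · push_cast at S2; exact S2

end Pool.Agent.U467.PC
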